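import Pool.Agent.TH15.AT.Ifc
import Pool.Agent.TH231.AT.Fpart

/-!
# Phase 2 for the AT line: the `f` part
-/

set_option autoImplicit false

open MeasureTheory ProbabilityTheory Set

namespace Pool.TH15.AT

open Pool.TH198.AT

theorem t_F (hL : St_LEIB) : St_F := by
  intro β ζ f _ hζ hf
  obtain ⟨fx, fxx, C, _, h1, h2, h3, h4, _⟩ := Pool.TH231.AT.f_part hL hζ hf
  exact ⟨fx, fxx, C, h1, h2, h3, h4⟩

end Pool.TH15.AT
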