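import Pool.Agent.TH198.AT.Stmts

/-!
# Phase 2 for the AT line: interface (f part, R part)
-/

set_option autoImplicit false

open MeasureTheory ProbabilityTheory Set

namespace Pool.TH15.AT

open Pool.TH198.AT

/-- `A(t,x) = P_{a(q-t)} tanh (x)`, `a = 2β²` -/
noncomputable def aA (β q t x : ℝ) : ℝ :=
  E1 (fun y => Real.tanh (x + √(2 * β ^ 2 * (q - t)) * y))

/-- `R(t,x) = β² ∫_t^q ζ(r) P_{a(r-t)}[A(r,·)²](x) dr` -/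
noncomputable def RR (β q : ℝ) (ζ : ℝ → ℝ) (t x : ℝ) : ℝ :=
  β ^ 2 * ∫ r in t..q, ζ r * E1 (fun z => (aA β q r (x + √(2 * β ^ 2 * (r - t)) * z)) ^ 2)

/-- the `R` part -/
def St_R : Prop :=
  ∀ (β q : ℝ) (ζ : ℝ → ℝ), 0 < β → 0 ≤ q → q ≤ 1 → IsCdf ζ →
    ∃ (Rx Rxx : ℝ → ℝ → ℝ) (C : ℝ),
      (∀ t ∈ Icc 0 q, ∀ x, HasDerivAt (RR β q ζ t) (Rx t x) x ∧ HasDerivAt (Rx t) (Rxx t x) x) ∧
      (∀ t ∈ Ico 0 q, ∀ x, HasDerivWithinAt (fun τ => RR β q ζ τ x)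
        (-(β ^ 2 * ζ t * aA β q t x ^ 2) - β ^ 2 * Rxx t x) (Ici t) t) ∧
      ContinuousOn (fun p : ℝ × ℝ => RR β q ζ p.1 p.2) (Icc 0 q ×ˢ univ) ∧
      (∀ t ∈ Icc 0 q, ∀ x, |RR β q ζ t x| ≤ C)

/-- the `f` part -/
def St_F : Prop :=
  ∀ (β : ℝ) (ζ : ℝ → ℝ) (f : ℝ → ℝ → ℝ), 0 < β → IsCdf ζ → IsParisi β ζ f →
    ∃ (fx fxx : ℝ → ℝ → ℝ) (C : ℝ),
      (∀ t ∈ Icc (0 : ℝ) 1, ∀ x, HasDerivAt (f t) (fx t x) x ∧ HasDerivAt (fx t) (fxx t x) x) ∧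
      (∀ t ∈ Ico (0 : ℝ) 1, ∀ x, HasDerivWithinAt (fun τ => f τ x)
        (-(β ^ 2 * (fxx t x + ζ t * fx t x ^ 2))) (Ici t) t) ∧
      ContinuousOn (fun p : ℝ × ℝ => f p.1 p.2) (Icc 0 1 ×ˢ univ) ∧
      (∀ t ∈ Icc (0 : ℝ) 1, ∀ x, |f t x| ≤ C * (1 + |x|))

end Pool.TH15.AT
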