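import Pool.Agent.TH15.AT.Ifc

/-!
# Phase 2 for the AT line: assembly
-/

set_option autoImplicit false

open MeasureTheory ProbabilityTheory Set

namespace Pool.TH15.AT

open Pool.TH198.AT

theorem hasDerivAt_tanh (x : ℝ) : HasDerivAt Real.tanh (1 - Real.tanh x ^ 2) x := by
  have h1 : Real.tanh = fun x => Real.sinh x / Real.cosh x := by
    funext x; exact Real.tanh_eq_sinh_div_cosh x
  have hc : Real.cosh x ≠ 0 := (Real.cosh_pos x).ne'
  have h2 := (Real.hasDerivAt_sinh x).div (Real.hasDerivAt_cosh x) hc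
  have h3 : HasDerivAt Real.tanh
      ((Real.cosh x * Real.cosh x - Real.sinh x * Real.sinh x) / Real.cosh x ^ 2) x := by
    rw [h1]; exact h2
  refine h3.congr_deriv ?_
  rw [Real.tanh_eq_sinh_div_cosh]
  field_simp

theorem abs_tanh_le (x : ℝ) : |Real.tanh x| ≤ 1 := by
  rw [abs_le]
  exact ⟨(Real.neg_one_lt_tanh x).le, (Real.tanh_lt_one x).le⟩

theorem C2b_tanh : C2b Real.tanh (fun x => 1 - Real.tanh x ^ 2)
    (fun x => -(2 * Real.tanh x * (1 - Real.tanh x ^ 2))) := by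
  have hc : Continuous Real.tanh :=
    continuous_iff_continuousAt.2 fun x => (hasDerivAt_tanh x).continuousAt
  refine ⟨hasDerivAt_tanh, fun x => ?_, ?_, 2, fun x => ?_⟩
  · have h : HasDerivAt (fun x => 1 - Real.tanh x ^ 2)
        (-(((2 : ℕ) : ℝ) * Real.tanh x ^ (2 - 1) * (1 - Real.tanh x ^ 2))) x :=
      ((hasDerivAt_tanh x).pow 2).const_sub 1
    refine h.congr_deriv ?_
    norm_num
  · fun_prop
  · have h1 := abs_tanh_le x
    have h2 : 0 ≤ 1 - Real.tanh x ^ 2 := by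
      have := (sq_le_one_iff_abs_le_one (Real.tanh x)).2 h1
      linarith
    have h3 : 1 - Real.tanh x ^ 2 ≤ 1 := by nlinarith [sq_nonneg (Real.tanh x)]
    constructor
    · show |1 - Real.tanh x ^ 2| ≤ 2
      rw [abs_of_nonneg h2]; linarith
    · show |-(2 * Real.tanh x * (1 - Real.tanh x ^ 2))| ≤ 2
      rw [abs_neg, abs_mul, abs_mul, abs_of_nonneg h2, abs_two]
      have h4 : 0 ≤ |Real.tanh x| := abs_nonneg _
      nlinarith

theorem E1_bound {g : ℝ → ℝ} {C : ℝ} (h : ∀ z, |g z| ≤ C) : |E1 g| ≤ C := by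
  unfold E1
  have := norm_integral_le_of_norm_le_const (μ := gaussianReal 0 1) (f := g) (C := C)
    (Filter.Eventually.of_forall h)
  simpa using this

/-- the heat extension -/
noncomputable def UU (β q : ℝ) (g : ℝ → ℝ) (t x : ℝ) : ℝ :=
  E1 (fun y => g (x + √(2 * β ^ 2 * (q - t)) * y))

theorem heat (hH : St_HEAT) (hX : St_HEATX) (β q : ℝ) (hβ : 0 < β) (g g1 g2 : ℝ → ℝ)
    (hg : C2b g g1 g2) :
    (∀ t x, HasDerivAt (UU β q g t) (UU β q g1 t x) x) ∧
    (∀ t x, HasDerivAt (UU β q g1 t) (UU β q g2 t x) x) ∧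
    (∀ t, t < q → ∀ x, HasDerivAt (fun τ => UU β q g τ x) (-(β ^ 2 * UU β q g2 t x)) t) ∧
    Continuous (fun p : ℝ × ℝ => UU β q g p.1 p.2) ∧
    ∃ C : ℝ, 0 ≤ C ∧ ∀ t ∈ Icc 0 q, ∀ x, |UU β q g t x| ≤ C * (1 + |x|) := by
  obtain ⟨hd1, hd2, hc2, C, hC⟩ := hg
  have hc1 : Continuous g1 := continuous_iff_continuousAt.2 fun x => (hd2 x).continuousAt
  have hx1 : ∀ t x, HasDerivAt (UU β q g t) (UU β q g1 t x) x := fun t x =>
    hX g g1 C hd1 hc1 (fun x => (hC x).1) _ x
  have hx2 : ∀ t x, HasDerivAt (UU β q g1 t) (UU β q g2 t x) x := fun t x =>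
    hX g1 g2 C hd2 hc2 (fun x => (hC x).2) _ x
  obtain ⟨hv, hcont⟩ := hH g g1 g2 ⟨hd1, hd2, hc2, C, hC⟩
  have hcU : Continuous (fun p : ℝ × ℝ => UU β q g p.1 p.2) := by
    have h1 : Continuous (fun p : ℝ × ℝ => ((p.2, 2 * β ^ 2 * (q - p.1)) : ℝ × ℝ)) := by
      fun_prop
    exact hcont.comp h1
  refine ⟨hx1, hx2, ?_, hcU, ?_⟩
  · intro t ht x
    have h0 : 0 < 2 * β ^ 2 * (q - t) := by
      have : 0 < q - t := by linarith
      positivity
    have h1 := hv x (2 * β ^ 2 * (q - t)) h0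
    have h2 : HasDerivAt (fun τ : ℝ => 2 * β ^ 2 * (q - τ)) (2 * β ^ 2 * (-1)) t := by
      have := ((hasDerivAt_id t).const_sub q).const_mul (2 * β ^ 2)
      simpa using this
    have h3 : HasDerivAt (fun τ => UU β q g τ x)
      (E1 (fun y => g2 (x + √(2 * β ^ 2 * (q - t)) * y)) / 2 * (2 * β ^ 2 * (-1))) t :=
      HasDerivAt.comp t (h₂ := fun v => E1 (fun y => g (x + √v * y)))
        (h := fun τ : ℝ => 2 * β ^ 2 * (q - τ)) h1 h2
    refine h3.congr_deriv ?_
    show _ = -(β ^ 2 * E1 (fun y => g2 (x + √(2 * β ^ 2 * (q - t)) * y)))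
    ring
  · obtain ⟨K, hK⟩ := (isCompact_Icc (a := (0 : ℝ)) (b := q)).exists_bound_of_continuousOn
      (f := fun t => UU β q g t 0) (by
        have h1 : Continuous (fun t : ℝ => UU β q g t 0) :=
          hcU.comp (f := fun t : ℝ => ((t, 0) : ℝ × ℝ)) (by fun_prop)
        exact h1.continuousOn)
    have hC0 : 0 ≤ C := (abs_nonneg _).trans (hC 0).1
    refine ⟨max K 0 + C, by positivity, fun t ht x => ?_⟩
    have h1 : |UU β q g t 0| ≤ K := hK t ht
    have h2 : |UU β q g t x - UU β q g t 0| ≤ C * |x - 0| := by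
      have := Convex.norm_image_sub_le_of_norm_hasDerivWithin_le (s := Set.univ)
        (f := UU β q g t) (f' := UU β q g1 t) (C := C) (x := 0) (y := x)
        (fun y _ => (hx1 t y).hasDerivWithinAt)
        (fun y _ => E1_bound fun z => (hC _).1) convex_univ (mem_univ _) (mem_univ _)
      simpa using this
    have h3 : |UU β q g t x| ≤ |UU β q g t x - UU β q g t 0| + |UU β q g t 0| := by
      have := abs_add_le (UU β q g t x - UU β q g t 0) (UU β q g t 0)
      simpa using this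
    rw [sub_zero] at h2
    have h4 : K ≤ max K 0 := le_max_left _ _
    have h5 : 0 ≤ max K 0 := le_max_right _ _
    nlinarith [abs_nonneg x, mul_nonneg h5 (abs_nonneg x)]

theorem UU_q (β q : ℝ) (g : ℝ → ℝ) (x : ℝ) : UU β q g q x = g x := by
  unfold UU E1
  simp

theorem t_PH2 (hM : St_MAX) (hH : St_HEAT) (hX : St_HEATX) (hR : St_R) (hF : St_F) :
    St_PH2 := by
  intro β q ζ f G G1 G2 hβ hq0 hq1 hζ hf hG hGf h
  obtain ⟨fx, fxx, Cf, hfx, hft, hfc, hfb⟩ := hF β ζ f hβ hζ hf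
  obtain ⟨Rx, Rxx, CR, hRx, hRt, hRc, hRb⟩ := hR β q ζ hβ hq0 hq1 hζ
  obtain ⟨hG1, hG2, hGt, hGc, CG, hCG, hGb⟩ := heat hH hX β q hβ G G1 G2 hG
  obtain ⟨hA1, hA2, hAt, hAc, -⟩ := heat hH hX β q hβ _ _ _ C2b_tanh
  set A : ℝ → ℝ → ℝ := UU β q Real.tanh with hAdef
  set A1 : ℝ → ℝ → ℝ := UU β q (fun x => 1 - Real.tanh x ^ 2) with hA1def
  set A2 : ℝ → ℝ → ℝ := UU β q (fun x => -(2 * Real.tanh x * (1 - Real.tanh x ^ 2))) with hA2def
  have hAb : ∀ t x, |A t x| ≤ 1 := fun t x => E1_bound fun z => abs_tanh_le _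
  have haA : ∀ t x, aA β q t x = A t x := fun t x => rfl
  have hIcc : Icc (0 : ℝ) q ⊆ Icc 0 1 := Icc_subset_Icc_right hq1
  have hCf : 0 ≤ Cf := by
    have h1 := hfb 0 ⟨le_rfl, zero_le_one⟩ 0
    have h2 := (abs_nonneg _).trans h1
    simpa using h2
  have hCR : 0 ≤ CR := (abs_nonneg _).trans (hRb 0 ⟨le_rfl, hq0⟩ 0)
  have key := hM (2 * β ^ 2) 0 q (2 * β ^ 2 + Cf + CG + CR + 1)
    (fun t x y => f t y - (UU β q G t x + RR β q ζ t x + (y - x) * A t x))
    (fun t x y => -(β ^ 2 * (fxx t y + ζ t * fx t y ^ 2)) -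
      (-(β ^ 2 * UU β q G2 t x) + (-(β ^ 2 * ζ t * A t x ^ 2) - β ^ 2 * Rxx t x) +
        (y - x) * (-(β ^ 2 * A2 t x))))
    (fun t x y => fx t y - (UU β q G1 t x + Rx t x + (y - x) * A1 t x))
    (fun t x y => fxx t y - (UU β q G2 t x + Rxx t x + (y - x) * A2 t x))
    (fun t x y => -(UU β q G1 t x + Rx t x + ((-1) * A t x + (y - x) * A1 t x)))
    (fun t x y => fx t y - A t x)
    (fun _ _ _ => 0) (fun t x _ => 2 * β ^ 2 * ζ t * A t x)
    (by positivity) hq0 ?_ ?_ ?_ ?_ 0 ⟨le_rfl, hq0⟩ h h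
  · have h1 : UU β q G 0 h = E1 (fun y => G (h + √(2 * β ^ 2 * q) * y)) := by
      unfold UU; simp
    have h2 : RR β q ζ 0 h = β ^ 2 * (∫ r in (0 : ℝ)..q, ζ r * E1 (fun z => (E1 (fun y =>
          Real.tanh (h + √(2 * β ^ 2 * r) * z + √(2 * β ^ 2 * (q - r)) * y))) ^ 2)) := by
      unfold RR aA; simp
    have h3 : 0 ≤ f 0 h - (UU β q G 0 h + RR β q ζ 0 h + (h - h) * A 0 h) := key
    rw [h1, h2] at h3
    linarith
  · -- continuity
    have m1 : MapsTo (fun p : ℝ × ℝ × ℝ => ((p.1, p.2.2) : ℝ × ℝ)) (Icc 0 q ×ˢ univ)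
        (Icc 0 1 ×ˢ univ) := fun p hp => ⟨hIcc hp.1, mem_univ _⟩
    have m2 : MapsTo (fun p : ℝ × ℝ × ℝ => ((p.1, p.2.1) : ℝ × ℝ)) (Icc 0 q ×ˢ univ)
        (Icc 0 q ×ˢ univ) := fun p hp => ⟨hp.1, mem_univ _⟩
    have c1 : ContinuousOn (fun p : ℝ × ℝ × ℝ => f p.1 p.2.2) (Icc 0 q ×ˢ univ) :=
      hfc.comp (f := fun p : ℝ × ℝ × ℝ => ((p.1, p.2.2) : ℝ × ℝ)) (by fun_prop) m1
    have c2 : ContinuousOn (fun p : ℝ × ℝ × ℝ => RR β q ζ p.1 p.2.1) (Icc 0 q ×ˢ univ) :=
      hRc.comp (f := fun p : ℝ × ℝ × ℝ => ((p.1, p.2.1) : ℝ × ℝ)) (by fun_prop) m2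
    have c3 : Continuous (fun p : ℝ × ℝ × ℝ => UU β q G p.1 p.2.1) :=
      hGc.comp (f := fun p : ℝ × ℝ × ℝ => ((p.1, p.2.1) : ℝ × ℝ)) (by fun_prop)
    have c4 : Continuous (fun p : ℝ × ℝ × ℝ => A p.1 p.2.1) :=
      hAc.comp (f := fun p : ℝ × ℝ × ℝ => ((p.1, p.2.1) : ℝ × ℝ)) (by fun_prop)
    have c5 : Continuous (fun p : ℝ × ℝ × ℝ => p.2.2 - p.2.1) := by fun_prop
    exact c1.sub ((c3.continuousOn.add c2).add (c5.mul c4).continuousOn)
  · -- derivatives
    intro t ht x y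
    have htq : t ∈ Icc 0 q := ⟨ht.1, ht.2.le⟩
    have ht1 : t ∈ Ico (0 : ℝ) 1 := ⟨ht.1, lt_of_lt_of_le ht.2 hq1⟩
    have ht1' : t ∈ Icc (0 : ℝ) 1 := hIcc htq
    have hζt := hζ.2.1 t ht1'
    refine ⟨?_, ?_, ?_, ?_, ?_, ?_, ?_, ?_⟩
    · have e1 := hft t ht1 y
      have e2 := (hGt t ht.2 x).hasDerivWithinAt (s := Ici t)
      have e3 := hRt t ht x
      have e4 := ((hAt t ht.2 x).hasDerivWithinAt (s := Ici t)).const_mul (y - x)
      exact e1.sub ((e2.add e3).add e4)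
    · have s1 : HasDerivAt (fun u : ℝ => y + u) 1 0 := by
        simpa using (hasDerivAt_id (0 : ℝ)).const_add y
      have s2 : HasDerivAt (fun u : ℝ => x + u) 1 0 := by
        simpa using (hasDerivAt_id (0 : ℝ)).const_add x
      have e1 : HasDerivAt (fun u => f t (y + u)) (fx t y) 0 := by
        have := HasDerivAt.comp (0 : ℝ) (h₂ := f t) (h := fun u : ℝ => y + u)
          (by simpa using (hfx t ht1' y).1) s1
        exact this.congr_deriv (mul_one _)
      have e2 : HasDerivAt (fun u => UU β q G t (x + u)) (UU β q G1 t x) 0 := by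
        have := HasDerivAt.comp (0 : ℝ) (h₂ := UU β q G t) (h := fun u : ℝ => x + u)
          (by simpa using hG1 t x) s2
        exact this.congr_deriv (mul_one _)
      have e3 : HasDerivAt (fun u => RR β q ζ t (x + u)) (Rx t x) 0 := by
        have := HasDerivAt.comp (0 : ℝ) (h₂ := RR β q ζ t) (h := fun u : ℝ => x + u)
          (by simpa using (hRx t htq x).1) s2
        exact this.congr_deriv (mul_one _)
      have e4 : HasDerivAt (fun u => A t (x + u)) (A1 t x) 0 := by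
        have := HasDerivAt.comp (0 : ℝ) (h₂ := A t) (h := fun u : ℝ => x + u)
          (by simpa using hA1 t x) s2
        exact this.congr_deriv (mul_one _)
      have e5 := e1.sub ((e2.add e3).add (e4.const_mul (y - x)))
      refine e5.congr_of_eventuallyEq (Filter.Eventually.of_forall fun u => ?_)
      show f t (y + u) - (UU β q G t (x + u) + RR β q ζ t (x + u) +
        ((y + u) - (x + u)) * A t (x + u)) = _
      simp only [Pi.sub_apply, Pi.add_apply]
      ring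
    · have s1 : HasDerivAt (fun u : ℝ => y + u) 1 0 := by
        simpa using (hasDerivAt_id (0 : ℝ)).const_add y
      have s2 : HasDerivAt (fun u : ℝ => x + u) 1 0 := by
        simpa using (hasDerivAt_id (0 : ℝ)).const_add x
      have e1 : HasDerivAt (fun u => fx t (y + u)) (fxx t y) 0 := by
        have := HasDerivAt.comp (0 : ℝ) (h₂ := fx t) (h := fun u : ℝ => y + u)
          (by simpa using (hfx t ht1' y).2) s1
        exact this.congr_deriv (mul_one _)
      have e2 : HasDerivAt (fun u => UU β q G1 t (x + u)) (UU β q G2 t x) 0 := by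
        have := HasDerivAt.comp (0 : ℝ) (h₂ := UU β q G1 t) (h := fun u : ℝ => x + u)
          (by simpa using hG2 t x) s2
        exact this.congr_deriv (mul_one _)
      have e3 : HasDerivAt (fun u => Rx t (x + u)) (Rxx t x) 0 := by
        have := HasDerivAt.comp (0 : ℝ) (h₂ := Rx t) (h := fun u : ℝ => x + u)
          (by simpa using (hRx t htq x).2) s2
        exact this.congr_deriv (mul_one _)
      have e4 : HasDerivAt (fun u => A1 t (x + u)) (A2 t x) 0 := by
        have := HasDerivAt.comp (0 : ℝ) (h₂ := A1 t) (h := fun u : ℝ => x + u)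
          (by simpa using hA2 t x) s2
        exact this.congr_deriv (mul_one _)
      have e5 := e1.sub ((e2.add e3).add (e4.const_mul (y - x)))
      refine e5.congr_of_eventuallyEq (Filter.Eventually.of_forall fun u => ?_)
      show fx t (y + u) - (UU β q G1 t (x + u) + Rx t (x + u) +
        ((y + u) - (x + u)) * A1 t (x + u)) = _
      simp only [Pi.sub_apply, Pi.add_apply]
      ring
    · have e2 := hG1 t x
      have e3 := (hRx t htq x).1
      have e4 : HasDerivAt (fun u => (y - u) * A t u) ((-1) * A t x + (y - x) * A1 t x) x :=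
        ((hasDerivAt_id x).const_sub y).mul (hA1 t x)
      exact ((e2.add e3).add e4).const_sub (f t y)
    · have e1 := (hfx t ht1' y).1
      have e4 : HasDerivAt (fun u => (u - x) * A t x) (1 * A t x) y :=
        ((hasDerivAt_id y).sub_const x).mul_const (A t x)
      have e5 := e1.sub (e4.const_add (UU β q G t x + RR β q ζ t x))
      rw [one_mul] at e5
      exact e5
    · show |(0 : ℝ)| ≤ _
      rw [abs_zero]; positivity
    · show |2 * β ^ 2 * ζ t * A t x| ≤ _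
      rw [abs_mul, abs_mul, abs_of_nonneg (show (0 : ℝ) ≤ 2 * β ^ 2 by positivity),
        abs_of_nonneg hζt.1]
      have e1 : 2 * β ^ 2 * ζ t * |A t x| ≤ 2 * β ^ 2 * 1 * 1 := by
        have h2 : 0 ≤ 2 * β ^ 2 := by positivity
        have h3 := hAb t x
        have h4 := hζt.2
        have h5 : ζ t * |A t x| ≤ 1 * 1 := mul_le_mul h4 h3 (abs_nonneg _) zero_le_one
        nlinarith
      linarith
    · show -(β ^ 2 * (fxx t y + ζ t * fx t y ^ 2)) -
        (-(β ^ 2 * UU β q G2 t x) + (-(β ^ 2 * ζ t * A t x ^ 2) - β ^ 2 * Rxx t x) +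
        (y - x) * (-(β ^ 2 * A2 t x))) +
        2 * β ^ 2 / 2 * (fxx t y - (UU β q G2 t x + Rxx t x + (y - x) * A2 t x)) +
        0 * (-(UU β q G1 t x + Rx t x + ((-1) * A t x + (y - x) * A1 t x))) +
        2 * β ^ 2 * ζ t * A t x * (fx t y - A t x) ≤ 0
      have e1 : 0 ≤ β ^ 2 * ζ t * (fx t y - A t x) ^ 2 := by
        have := hζt.1
        positivity
      nlinarith
  · -- terminal values
    intro x y
    show 0 ≤ f q y - (UU β q G q x + RR β q ζ q x + (y - x) * UU β q Real.tanh q x)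
    rw [UU_q, UU_q]
    have h1 : RR β q ζ q x = 0 := by unfold RR; simp
    rw [h1]
    have := hGf x y
    linarith
  · -- growth
    intro t ht x y
    show _ ≤ f t y - (UU β q G t x + RR β q ζ t x + (y - x) * A t x)
    have h1 := (abs_le.1 (hfb t (hIcc ht) y)).1
    have h2 := (abs_le.1 (hGb t ht x)).2
    have h3 := (abs_le.1 (hRb t ht x)).2
    have h4 : (y - x) * A t x ≤ |x| + |y| := by
      have h5 : (y - x) * A t x ≤ |(y - x) * A t x| := le_abs_self _
      rw [abs_mul] at h5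
      have h6 : |y - x| ≤ |y| + |x| := abs_sub y x
      have h7 := hAb t x
      have h8 : |y - x| * |A t x| ≤ |y - x| * 1 :=
        mul_le_mul_of_nonneg_left h7 (abs_nonneg _)
      linarith
    have hx := abs_nonneg x
    have hy := abs_nonneg y
    have hb : 0 ≤ 2 * β ^ 2 := by positivity
    nlinarith [mul_nonneg hCf hx, mul_nonneg hCG hy, mul_nonneg hCR hx, mul_nonneg hCR hy,
      mul_nonneg hb hx, mul_nonneg hb hy]

end Pool.TH15.AT
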