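import Pool.Agent.TH15.AT.PH2
import Pool.Agent.TH231.AT.Fpart

/-!
# Phase 2 for the AT line: the `R` part
-/

set_option autoImplicit false

open MeasureTheory ProbabilityTheory Set Filter Topology

namespace Pool.TH15.AT

open Pool.TH198.AT Pool.TH231.AT

theorem contE {X : Type} [TopologicalSpace X] [FirstCountableTopology X] (F : X → ℝ → ℝ)
    (C : ℝ) (hF : Continuous (fun p : X × ℝ => F p.1 p.2)) (hC : ∀ x y, |F x y| ≤ C) :
    Continuous (fun x => E1 (F x)) := by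
  unfold E1
  refine continuous_of_dominated (bound := fun _ => C) ?_ ?_ (integrable_const C) ?_
  · intro x
    have : Continuous (F x) := hF.comp (f := fun y : ℝ => ((x, y) : X × ℝ)) (by fun_prop)
    exact this.aestronglyMeasurable
  · intro x
    exact Eventually.of_forall fun y => hC x y
  · exact Eventually.of_forall fun y =>
      hF.comp (f := fun x : X => ((x, y) : X × ℝ)) (by fun_prop)

theorem cont_UU (β q : ℝ) (g : ℝ → ℝ) (C : ℝ) (hg : Continuous g) (hC : ∀ x, |g x| ≤ C) :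
    Continuous (fun p : ℝ × ℝ => UU β q g p.1 p.2) := by
  unfold UU
  refine contE (fun (p : ℝ × ℝ) y => g (p.2 + √(2 * β ^ 2 * (q - p.1)) * y)) C ?_
    (fun _ _ => hC _)
  fun_prop

/-- the kernel of phase 2 -/
noncomputable def kk2 (g : ℝ → ℝ → ℝ) (r w x : ℝ) : ℝ := E1 (fun z => g r (x + √w * z))

theorem cont_kk2 (g : ℝ → ℝ → ℝ) (C : ℝ) (hg : Continuous (fun p : ℝ × ℝ => g p.1 p.2))
    (hC : ∀ r x, |g r x| ≤ C) : Continuous (fun p : ℝ × ℝ × ℝ => kk2 g p.1 p.2.1 p.2.2) := by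
  unfold kk2
  refine contE (fun (p : ℝ × ℝ × ℝ) z => g p.1 (p.2.2 + √p.2.1 * z)) C ?_ (fun _ _ => hC _ _)
  exact hg.comp (f := fun p : (ℝ × ℝ × ℝ) × ℝ =>
    ((p.1.1, p.1.2.2 + √p.1.2.1 * p.2) : ℝ × ℝ)) (by fun_prop)

theorem ker (hH : St_HEAT) (hX : St_HEATX) (β q : ℝ) (hβ : 0 < β) :
    Ker 0 q 6 (kk2 fun r x => UU β q Real.tanh r x ^ 2)
      (kk2 fun r x => 2 * UU β q Real.tanh r x * UU β q (fun x => 1 - Real.tanh x ^ 2) r x)
      (kk2 fun r x => 2 * (UU β q (fun x => 1 - Real.tanh x ^ 2) r x *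
        UU β q (fun x => 1 - Real.tanh x ^ 2) r x + UU β q Real.tanh r x *
        UU β q (fun x => -(2 * Real.tanh x * (1 - Real.tanh x ^ 2))) r x))
      (fun r w x => kk2 (fun r x => 2 * (UU β q (fun x => 1 - Real.tanh x ^ 2) r x *
        UU β q (fun x => 1 - Real.tanh x ^ 2) r x + UU β q Real.tanh r x *
        UU β q (fun x => -(2 * Real.tanh x * (1 - Real.tanh x ^ 2))) r x)) r w x / 2) := by
  obtain ⟨hA1, hA2, -, -, -⟩ := heat hH hX β q hβ _ _ _ C2b_tanh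
  have htc : Continuous Real.tanh :=
    continuous_iff_continuousAt.2 fun x => (hasDerivAt_tanh x).continuousAt
  have b0 : ∀ x, |Real.tanh x| ≤ 1 := abs_tanh_le
  have b1' : ∀ x, 0 ≤ 1 - Real.tanh x ^ 2 := fun x => by
    have := (sq_le_one_iff_abs_le_one (Real.tanh x)).2 (b0 x)
    linarith
  have b1 : ∀ x, |1 - Real.tanh x ^ 2| ≤ 1 := fun x => by
    rw [abs_of_nonneg (b1' x)]
    nlinarith [sq_nonneg (Real.tanh x)]
  have b2 : ∀ x, |-(2 * Real.tanh x * (1 - Real.tanh x ^ 2))| ≤ 2 := fun x =>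
    by
      have h1 := b0 x
      have h2 := b1 x
      rw [abs_neg, abs_mul, abs_mul, abs_two]
      have h3 : |Real.tanh x| * |1 - Real.tanh x ^ 2| ≤ 1 * 1 :=
        mul_le_mul h1 h2 (abs_nonneg _) zero_le_one
      nlinarith
  set A : ℝ → ℝ → ℝ := UU β q Real.tanh with hAdef
  set A1 : ℝ → ℝ → ℝ := UU β q (fun x => 1 - Real.tanh x ^ 2) with hA1def
  set A2 : ℝ → ℝ → ℝ := UU β q (fun x => -(2 * Real.tanh x * (1 - Real.tanh x ^ 2))) with hA2def
  have c0 : Continuous (fun p : ℝ × ℝ => A p.1 p.2) := cont_UU β q _ 1 htc b0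
  have c1 : Continuous (fun p : ℝ × ℝ => A1 p.1 p.2) := cont_UU β q _ 1 (by fun_prop) b1
  have c2 : Continuous (fun p : ℝ × ℝ => A2 p.1 p.2) := cont_UU β q _ 2 (by fun_prop) b2
  have B0 : ∀ r x, |A r x| ≤ 1 := fun r x => E1_bound fun z => b0 _
  have B1 : ∀ r x, |A1 r x| ≤ 1 := fun r x => E1_bound fun z => b1 _
  have B2 : ∀ r x, |A2 r x| ≤ 2 := fun r x => E1_bound fun z => b2 _
  have G0 : ∀ r x, |A r x ^ 2| ≤ 6 := fun r x => by
    rw [abs_pow]
    have := B0 r x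
    nlinarith [abs_nonneg (A r x)]
  have G1 : ∀ r x, |2 * A r x * A1 r x| ≤ 6 := fun r x => by
    rw [abs_mul, abs_mul, abs_two]
    have h3 : |A r x| * |A1 r x| ≤ 1 * 1 := mul_le_mul (B0 r x) (B1 r x) (abs_nonneg _) zero_le_one
    nlinarith
  have G2 : ∀ r x, |2 * (A1 r x * A1 r x + A r x * A2 r x)| ≤ 6 := fun r x => by
    rw [abs_mul, abs_two]
    have h3 : |A1 r x * A1 r x| ≤ 1 * 1 := by
      rw [abs_mul]
      exact mul_le_mul (B1 r x) (B1 r x) (abs_nonneg _) zero_le_one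
    have h4 : |A r x * A2 r x| ≤ 1 * 2 := by
      rw [abs_mul]
      exact mul_le_mul (B0 r x) (B2 r x) (abs_nonneg _) zero_le_one
    have h5 := abs_add_le (A1 r x * A1 r x) (A r x * A2 r x)
    linarith
  have d0 : ∀ r x, HasDerivAt (fun x => A r x ^ 2) (2 * A r x * A1 r x) x := fun r x => by
    have h := (hA1 r x).pow 2
    refine HasDerivAt.congr_deriv (f := fun x => A r x ^ 2) h ?_
    show ((2 : ℕ) : ℝ) * A r x ^ (2 - 1) * A1 r x = _
    norm_num
  have d1 : ∀ r x, HasDerivAt (fun x => 2 * A r x * A1 r x)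
      (2 * (A1 r x * A1 r x + A r x * A2 r x)) x := fun r x => by
    have h := ((hA1 r x).const_mul 2).mul (hA2 r x)
    refine HasDerivAt.congr_deriv (f := fun x => 2 * A r x * A1 r x) h ?_
    show 2 * A1 r x * A1 r x + 2 * A r x * A2 r x = _
    ring
  have e0 : Continuous (fun p : ℝ × ℝ => A p.1 p.2 ^ 2) := c0.pow 2
  have e1 : Continuous (fun p : ℝ × ℝ => 2 * A p.1 p.2 * A1 p.1 p.2) :=
    (continuous_const.mul c0).mul c1
  have e2 : Continuous (fun p : ℝ × ℝ => 2 * (A1 p.1 p.2 * A1 p.1 p.2 + A p.1 p.2 * A2 p.1 p.2)) :=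
    continuous_const.mul ((c1.mul c1).add (c0.mul c2))
  have e1r : ∀ r, Continuous (fun x => 2 * A r x * A1 r x) := fun r =>
    e1.comp (f := fun x : ℝ => ((r, x) : ℝ × ℝ)) (by fun_prop)
  have e2r : ∀ r, Continuous (fun x => 2 * (A1 r x * A1 r x + A r x * A2 r x)) := fun r =>
    e2.comp (f := fun x : ℝ => ((r, x) : ℝ × ℝ)) (by fun_prop)
  have C2 : ∀ r, C2b (fun x => A r x ^ 2) (fun x => 2 * A r x * A1 r x)
      (fun x => 2 * (A1 r x * A1 r x + A r x * A2 r x)) := fun r =>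
    ⟨d0 r, d1 r, e2r r, 6, fun x => ⟨G1 r x, G2 r x⟩⟩
  refine ⟨?_, ?_, ?_, ?_, ?_, ?_, ?_, ?_, ?_, ?_⟩
  · exact (cont_kk2 (fun r x => A r x ^ 2) 6 e0 G0).continuousOn
  · exact (cont_kk2 (fun r x => 2 * A r x * A1 r x) 6 e1 G1).continuousOn
  · exact (cont_kk2 (fun r x => 2 * (A1 r x * A1 r x + A r x * A2 r x)) 6 e2 G2).continuousOn
  · exact ((cont_kk2 (fun r x => 2 * (A1 r x * A1 r x + A r x * A2 r x)) 6 e2
      G2).div_const 2).continuousOn
  · intro r _ w _ x; exact E1_bound fun z => G0 _ _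
  · intro r _ w _ x; exact E1_bound fun z => G1 _ _
  · intro r _ w _ x; exact E1_bound fun z => G2 _ _
  · intro r _ w _ x
    exact hX (fun x => A r x ^ 2) (fun x => 2 * A r x * A1 r x) 6 (d0 r) (e1r r) (G1 r) (√w) x
  · intro r _ w _ x
    exact hX (fun x => 2 * A r x * A1 r x) (fun x => 2 * (A1 r x * A1 r x + A r x * A2 r x)) 6
      (d1 r) (e2r r) (G2 r) (√w) x
  · intro r _ w hw x
    exact (hH _ _ _ (C2 r)).1 x w hw

theorem t_R (hL : St_LEIB) (hH : St_HEAT) (hX : St_HEATX) : St_R := by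
  intro β q ζ hβ hq0 hq1 hζ
  have K := ker hH hX β q hβ
  set g : ℝ → ℝ → ℝ := fun r x => UU β q Real.tanh r x ^ 2 with hg
  set gx : ℝ → ℝ → ℝ := fun r x => 2 * UU β q Real.tanh r x *
    UU β q (fun x => 1 - Real.tanh x ^ 2) r x with hgx
  set gxx : ℝ → ℝ → ℝ := fun r x => 2 * (UU β q (fun x => 1 - Real.tanh x ^ 2) r x *
        UU β q (fun x => 1 - Real.tanh x ^ 2) r x + UU β q Real.tanh r x *
        UU β q (fun x => -(2 * Real.tanh x * (1 - Real.tanh x ^ 2))) r x) with hgxx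
  have ha : 0 < 2 * β ^ 2 := by positivity
  obtain ⟨r1, r2, r3, r4⟩ := r_gen (a := 2 * β ^ 2) (ρ := ext ζ) hL ha (ext_measurable hζ)
    (fun r _ => (abs_ext_le hζ r).trans (by norm_num))
    (fun t ht => ext_right hζ ⟨ht.1, lt_of_lt_of_le ht.2 hq1⟩) K
  have hRI : ∀ t ∈ Icc 0 q, ∀ x, RR β q ζ t x =
      β ^ 2 * RI (2 * β ^ 2) q (ext ζ) (kk2 g) t x := by
    intro t ht x
    unfold RR RI
    congr 1
    refine intervalIntegral.integral_congr fun r hr => ?_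
    rw [uIcc_of_le ht.2] at hr
    have hr' : r ∈ Icc (0 : ℝ) 1 := ⟨ht.1.trans hr.1, hr.2.trans hq1⟩
    show ζ r * _ = ext ζ r * _
    rw [ext_eq hr']
    rfl
  refine ⟨fun t x => β ^ 2 * RI (2 * β ^ 2) q (ext ζ) (kk2 gx) t x,
    fun t x => β ^ 2 * RI (2 * β ^ 2) q (ext ζ) (kk2 gxx) t x,
    β ^ 2 * (6 * 6 * (q - 0)), ?_, ?_, ?_, ?_⟩
  · intro t ht x
    obtain ⟨h1, h2⟩ := r1 t ht x
    refine ⟨?_, h2.const_mul (β ^ 2)⟩
    have h3 : RR β q ζ t = fun x => β ^ 2 * RI (2 * β ^ 2) q (ext ζ) (kk2 g) t x := by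
      funext x; exact hRI t ht x
    rw [h3]
    exact h1.const_mul (β ^ 2)
  · intro t ht x
    have h1 := (r2 t ht x).const_mul (β ^ 2)
    have htI : t ∈ Icc 0 q := ⟨ht.1, ht.2.le⟩
    have h2 : HasDerivWithinAt (fun τ => RR β q ζ τ x)
        (β ^ 2 * (-(ext ζ t * kk2 g t 0 x) - 2 * β ^ 2 *
          RI (2 * β ^ 2) q (ext ζ) (fun r w x => kk2 gxx r w x / 2) t x)) (Ici t) t := by
      refine h1.congr_of_eventuallyEq ?_ (hRI t htI x)
      have h3 : ∀ᶠ τ in 𝓝[Ici t] t, τ < q := nhdsWithin_le_nhds (gt_mem_nhds ht.2)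
      filter_upwards [h3, self_mem_nhdsWithin] with τ h4 h5
      exact hRI τ ⟨ht.1.trans h5, h4.le⟩ x
    refine h2.congr_deriv ?_
    have h6 : kk2 g t 0 x = aA β q t x ^ 2 := by
      show E1 (fun z => UU β q Real.tanh t (x + √0 * z) ^ 2) = _
      unfold E1
      simp only [Real.sqrt_zero, zero_mul, add_zero, integral_const, probReal_univ, one_smul]
      rfl
    have h7 : RI (2 * β ^ 2) q (ext ζ) (fun r w x => kk2 gxx r w x / 2) t x =
        RI (2 * β ^ 2) q (ext ζ) (kk2 gxx) t x / 2 := by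
      unfold RI
      rw [← intervalIntegral.integral_div]
      refine intervalIntegral.integral_congr fun r _ => ?_
      show ext ζ r * (_ / 2) = ext ζ r * _ / 2
      ring
    rw [h6, h7, ext_eq ⟨ht.1, (ht.2.le).trans hq1⟩]
    ring
  · have h1 := (continuousOn_const (c := β ^ 2)).mul r3
    refine h1.congr ?_
    rintro ⟨t, x⟩ ⟨ht, -⟩
    exact hRI t ht x
  · intro t ht x
    rw [hRI t ht x, abs_mul, abs_of_nonneg (show (0 : ℝ) ≤ β ^ 2 by positivity)]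
    exact mul_le_mul_of_nonneg_left (r4 t ht x).1 (by positivity)

/-- phase 2 -/
theorem t_PH2' (hM : St_MAX) (hL : St_LEIB) (hH : St_HEAT) (hX : St_HEATX) : St_PH2 :=
  t_PH2 hM hH hX (t_R hL hH hX) (fun β ζ f _ hζ hf => by
    obtain ⟨fx, fxx, C, _, h1, h2, h3, h4, _⟩ := Pool.TH231.AT.f_part hL hζ hf
    exact ⟨fx, fxx, C, h1, h2, h3, h4⟩)

end Pool.TH15.AT
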